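import Pool.Agent.H484.AL.Stm

namespace Pool.Agent.H484.AL

open Finset
open scoped Classical

namespace TREE25

theorem len_cons (c : ℕ) (w : List ℕ) (hc : 1 ≤ c) (hw : ∀ x ∈ w, 1 ≤ x) :
    len (c :: w) = len w * ((1 + ((qq w).2 : ℝ) / (qq w).1) /
      (((c : ℝ) + ((qq w).2 : ℝ) / (qq w).1) *
        ((c : ℝ) + 1 + ((qq w).2 : ℝ) / (qq w).1))) := by
  have h1 : (1 : ℝ) ≤ (qq w).1 := by exact_mod_cast qq_pos w hw
  have h2 : (0 : ℝ) ≤ (qq w).2 := by positivity
  have h3 : (1 : ℝ) ≤ c := by exact_mod_cast hc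
  have h4 : (0 : ℝ) < (qq w).1 := by linarith
  have h5 : (0 : ℝ) < ((qq w).1 : ℝ) + (qq w).2 := by linarith
  have h6 : (0 : ℝ) < (c : ℝ) * (qq w).1 + (qq w).2 := by positivity
  simp only [len, qq]
  push_cast
  have h7 : (c : ℝ) + ((qq w).2 : ℝ) / (qq w).1 = ((c : ℝ) * (qq w).1 + (qq w).2) / (qq w).1 := by
    field_simp
  have h8 : (c : ℝ) + 1 + ((qq w).2 : ℝ) / (qq w).1
      = ((c : ℝ) * (qq w).1 + (qq w).2 + (qq w).1) / (qq w).1 := by
    field_simp
    ring
  have h9 : 1 + ((qq w).2 : ℝ) / (qq w).1 = ((qq w).1 + (qq w).2) / (qq w).1 := by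
    field_simp
  rw [h7, h8, h9]
  field_simp

theorem len_nonneg (w : List ℕ) : 0 ≤ len w := by
  unfold len; positivity

theorem prod_nonneg' (φ : ℕ → ℝ) (h : ∀ c, 0 ≤ φ c) (w : List ℕ) : 0 ≤ (w.map φ).prod := by
  apply List.prod_nonneg
  intro x hx
  rcases List.mem_map.1 hx with ⟨c, -, rfl⟩
  exact h c

theorem step (D n : ℕ) (φ : ℕ → ℝ) :
    ∑ w ∈ words D (n + 1), len w * (w.map φ).prod =
      ∑ w ∈ words D n, len w * (w.map φ).prod *
        ∑ c ∈ Finset.Icc 1 D, (1 + ((qq w).2 : ℝ) / (qq w).1) /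
          (((c : ℝ) + ((qq w).2 : ℝ) / (qq w).1) *
            ((c : ℝ) + 1 + ((qq w).2 : ℝ) / (qq w).1)) * φ c := by
  rw [sum_words_succ, Finset.sum_comm]
  refine Finset.sum_congr rfl ?_
  intro w hw
  rw [Finset.mul_sum]
  refine Finset.sum_congr rfl ?_
  intro c hc
  have hc' := Finset.mem_Icc.1 hc
  have hw' := (mem_words D n w).1 hw
  rw [len_cons c w hc'.1 (fun x hx => (hw'.2 x hx).1)]
  simp only [List.map_cons, List.prod_cons]
  ring

theorem s_bounds (w : List ℕ) (hw : ∀ x ∈ w, 1 ≤ x) :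
    0 ≤ ((qq w).2 : ℝ) / (qq w).1 ∧ ((qq w).2 : ℝ) / (qq w).1 ≤ 1 := by
  have h1 : (1 : ℝ) ≤ (qq w).1 := by exact_mod_cast qq_pos w hw
  have h2 : ((qq w).2 : ℝ) ≤ (qq w).1 := by exact_mod_cast qq_le w hw
  refine ⟨by positivity, ?_⟩
  rw [div_le_one (by linarith)]
  exact h2

end TREE25

open TREE25 in
theorem t_TREE : S_TREE := by
  intro D n φ ρ hφ hρ
  constructor
  · intro h
    induction n with
    | zero => simp [words, len, qq]
    | succ n ih =>
      rw [step]
      calc _ ≤ ∑ w ∈ words D n, len w * (w.map φ).prod * ρ := by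
            refine Finset.sum_le_sum ?_
            intro w hw
            have hw' := (mem_words D n w).1 hw
            have hs := s_bounds w (fun x hx => (hw'.2 x hx).1)
            exact mul_le_mul_of_nonneg_left (h _ hs.1 hs.2)
              (mul_nonneg (len_nonneg w) (prod_nonneg' φ hφ w))
        _ = (∑ w ∈ words D n, len w * (w.map φ).prod) * ρ := by rw [Finset.sum_mul]
        _ ≤ ρ ^ n * ρ := mul_le_mul_of_nonneg_right ih hρ
        _ = ρ ^ (n + 1) := by ring
  · intro h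
    induction n with
    | zero => simp [words, len, qq]
    | succ n ih =>
      rw [step]
      calc ρ ^ (n + 1) = ρ ^ n * ρ := by ring
        _ ≤ (∑ w ∈ words D n, len w * (w.map φ).prod) * ρ := mul_le_mul_of_nonneg_right ih hρ
        _ = ∑ w ∈ words D n, len w * (w.map φ).prod * ρ := by rw [Finset.sum_mul]
        _ ≤ _ := by
            refine Finset.sum_le_sum ?_
            intro w hw
            have hw' := (mem_words D n w).1 hw
            have hs := s_bounds w (fun x hx => (hw'.2 x hx).1)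
            exact mul_le_mul_of_nonneg_left (h _ hs.1 hs.2)
              (mul_nonneg (len_nonneg w) (prod_nonneg' φ hφ w))

end Pool.Agent.H484.AL
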